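import Mathlib

/-! Normal generation rank in profinite groups: invariant characters and supermodularity. -/

namespace Pool.R708.CN

open Subgroup Module

/-- A nontrivial normal subgroup of a finite `p`-group has a nonzero character to `Z/p`
invariant under conjugation by the whole group. -/
theorem exists_invariant_hom {p : ℕ} [Fact p.Prime] {Q : Type*} [Group Q] [Finite Q]
    (hQ : IsPGroup p Q) (N : Subgroup Q) [N.Normal] (hN : N ≠ ⊥) :
    ∃ χ : N →* Multiplicative (ZMod p), χ ≠ 1 ∧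
      ∀ (g : Q) (x : N), χ (MulAut.conjNormal g x) = χ x := by
  classical
  -- the action
  let act : MulAction Q (N →* Multiplicative (ZMod p)) :=
    { smul := fun g χ => χ.comp (MulAut.conjNormal (g⁻¹) : MulAut N).toMonoidHom
      one_smul := by
        intro χ
        ext x
        show χ (MulAut.conjNormal (1⁻¹ : Q) x) = χ x
        simp
      mul_smul := by
        intro g h χ
        ext x
        show χ (MulAut.conjNormal ((g * h)⁻¹) x) =
          χ (MulAut.conjNormal (h⁻¹) (MulAut.conjNormal (g⁻¹) x))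
        rw [mul_inv_rev, map_mul]
        rfl }
  have hsmul : ∀ (g : Q) (χ : N →* Multiplicative (ZMod p)) (x : N),
      (g • χ) x = χ (MulAut.conjNormal (g⁻¹) x) := fun _ _ _ => rfl
  -- existence of a nontrivial hom
  have hNp : IsPGroup p N := hQ.to_subgroup N
  obtain ⟨n, hn⟩ := IsPGroup.iff_card.mp hNp
  have hn0 : n ≠ 0 := by
    rintro rfl
    apply hN
    rw [pow_zero] at hn
    exact Subgroup.card_eq_one.mp hn
  obtain ⟨m, rfl⟩ := Nat.exists_eq_succ_of_ne_zero hn0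
  obtain ⟨K, hK⟩ := Sylow.exists_subgroup_card_pow_prime (G := N) p (n := m)
    (by rw [hn]; exact pow_dvd_pow p (Nat.le_succ m))
  have hKi : K.index = p := by
    have h1 := K.card_mul_index
    rw [hK, hn, pow_succ] at h1
    exact Nat.eq_of_mul_eq_mul_left (pow_pos (Fact.out : p.Prime).pos m) h1
  have hKn : K.Normal := by
    apply Subgroup.normal_of_index_eq_minFac_card
    rw [hKi, hn]
    exact ((Fact.out : p.Prime).pow_minFac (Nat.succ_ne_zero m)).symm
  have hcard : Nat.card (N ⧸ K) = p := hKi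
  have hcyc : IsCyclic (N ⧸ K) := isCyclic_of_prime_card hcard
  have e : (N ⧸ K) ≃* Multiplicative (ZMod p) := by
    refine mulEquivOfPrimeCardEq (p := p) hcard ?_
    rw [Nat.card_congr Multiplicative.toAdd]
    exact Nat.card_zmod p
  set χ0 : N →* Multiplicative (ZMod p) := e.toMonoidHom.comp (QuotientGroup.mk' K) with hχ0
  have hχ0ne : χ0 ≠ 1 := by
    intro h
    have hKtop : K ≠ ⊤ := by
      intro h2
      rw [h2, Subgroup.index_top] at hKi
      exact (Fact.out : p.Prime).one_lt.ne hKi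
    apply hKtop
    rw [eq_top_iff]
    intro x _
    have h3 : χ0 x = 1 := by rw [h]; rfl
    have h4 : e (QuotientGroup.mk' K x) = 1 := h3
    have h5 : QuotientGroup.mk' K x = 1 := by
      apply e.injective
      rw [h4, map_one]
    exact (QuotientGroup.eq_one_iff x).mp h5
  have hdvd : p ∣ Nat.card (N →* Multiplicative (ZMod p)) := by
    have hpow : χ0 ^ p = 1 := by
      ext x
      show Multiplicative.toAdd ((χ0 x) ^ p) = Multiplicative.toAdd 1
      rw [toAdd_pow, toAdd_one]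
      simp
    have h1 := orderOf_eq_prime hpow hχ0ne
    have h2 := orderOf_dvd_natCard χ0
    rwa [h1] at h2
  have : Finite (N →* Multiplicative (ZMod p)) :=
    Finite.of_injective (fun χ : N →* Multiplicative (ZMod p) => (χ : N → Multiplicative (ZMod p)))
      DFunLike.coe_injective
  have hfix : (1 : N →* Multiplicative (ZMod p)) ∈ MulAction.fixedPoints Q
      (N →* Multiplicative (ZMod p)) := by
    intro g
    ext x
    rfl
  obtain ⟨χ, hχ, hne⟩ :=
    hQ.exists_fixed_point_of_prime_dvd_card_of_fixed_point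
      (N →* Multiplicative (ZMod p)) hdvd hfix
  refine ⟨χ, hne.symm, fun g x => ?_⟩
  have := hχ (g⁻¹)
  have h2 := DFunLike.congr_fun this x
  rw [hsmul, inv_inv] at h2
  exact h2

variable {G : Type*} [Group G] [TopologicalSpace G]

/-- `G`-invariant locally constant characters of `N` with values in `Z/p`, extended by zero. -/
def H (p : ℕ) (N : Subgroup G) : Submodule (ZMod p) (G → ZMod p) where
  carrier := {χ | (∀ x, x ∉ N → χ x = 0) ∧ (∀ x ∈ N, ∀ y ∈ N, χ (x * y) = χ x + χ y) ∧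
    (∀ g, ∀ x ∈ N, χ (g * x * g⁻¹) = χ x) ∧
    ∃ U : Subgroup G, IsOpen (U : Set G) ∧ ∀ x ∈ U, x ∈ N → χ x = 0}
  add_mem' := by
    rintro a b ⟨a1, a2, a3, U, hU, a4⟩ ⟨b1, b2, b3, V, hV, b4⟩
    refine ⟨fun x hx => ?_, fun x hx y hy => ?_, fun g x hx => ?_, U ⊓ V, ?_, fun x hx hN => ?_⟩
    · simp [a1 x hx, b1 x hx]
    · simp only [Pi.add_apply, a2 x hx y hy, b2 x hx y hy]; ring
    · simp only [Pi.add_apply, a3 g x hx, b3 g x hx]
    · rw [Subgroup.coe_inf]; exact hU.inter hV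
    · simp [a4 x hx.1 hN, b4 x hx.2 hN]
  zero_mem' := ⟨fun _ _ => rfl, fun _ _ _ _ => by simp, fun _ _ _ => rfl, ⊤, by simp,
    fun _ _ _ => rfl⟩
  smul_mem' := by
    rintro c a ⟨a1, a2, a3, U, hU, a4⟩
    refine ⟨fun x hx => ?_, fun x hx y hy => ?_, fun g x hx => ?_, U, hU, fun x hx hN => ?_⟩
    · simp [a1 x hx]
    · simp only [Pi.smul_apply, a2 x hx y hy, smul_add]
    · simp only [Pi.smul_apply, a3 g x hx]
    · simp [a4 x hx hN]

open Classical in
/-- Restriction of functions (extension by zero outside `K`). -/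
noncomputable def res (p : ℕ) (K : Subgroup G) : (G → ZMod p) →ₗ[ZMod p] (G → ZMod p) where
  toFun χ := fun x => if x ∈ K then χ x else 0
  map_add' a b := by
    funext x
    by_cases h : x ∈ K <;> simp [h]
  map_smul' c a := by
    funext x
    by_cases h : x ∈ K <;> simp [h]

omit [TopologicalSpace G] in
theorem res_mem {p : ℕ} {K : Subgroup G} {χ : G → ZMod p} {x : G} (h : x ∈ K) :
    res p K χ x = χ x := by simp [res, h]

omit [TopologicalSpace G] in
theorem res_not_mem {p : ℕ} {K : Subgroup G} {χ : G → ZMod p} {x : G} (h : x ∉ K) :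
    res p K χ x = 0 := by simp [res, h]

theorem res_mem_H {p : ℕ} {K N : Subgroup G} (hK : K.Normal) (hKN : K ≤ N)
    {χ : G → ZMod p} (hχ : χ ∈ H p N) : res p K χ ∈ H p K := by
  obtain ⟨a1, a2, a3, U, hU, a4⟩ := hχ
  refine ⟨fun x hx => res_not_mem hx, fun x hx y hy => ?_, fun g x hx => ?_, U, hU,
    fun x hx hN => ?_⟩
  · rw [res_mem hx, res_mem hy, res_mem (K.mul_mem hx hy), a2 x (hKN hx) y (hKN hy)]
  · rw [res_mem hx, res_mem (hK.conj_mem x hx g), a3 g x (hKN hx)]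
  · rw [res_mem hN, a4 x hx (hKN hN)]

/-- gluing two characters agreeing on the intersection -/
theorem glue {p : ℕ} {N₁ N₂ : Subgroup G} (h₁ : N₁.Normal) (h₂ : N₂.Normal)
    (o₁ : IsOpen (N₁ : Set G))
    {a b : G → ZMod p} (ha : a ∈ H p N₁) (hb : b ∈ H p N₂)
    (hab : ∀ x ∈ N₁, x ∈ N₂ → a x = b x) :
    ∃ χ ∈ H p (N₁ ⊔ N₂), (∀ x ∈ N₁, χ x = a x) ∧ ∀ x ∈ N₂, χ x = b x := by
  classical
  obtain ⟨a1, a2, a3, U, hU, a4⟩ := ha
  obtain ⟨b1, b2, b3, V, hV, b4⟩ := hb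
  have hdec : ∀ x ∈ N₁ ⊔ N₂, ∃ u ∈ N₁, ∃ v ∈ N₂, u * v = x := fun x hx =>
    Subgroup.mem_sup_of_normal_left.mp hx
  have a0 : a 1 = 0 := by
    have := a2 1 N₁.one_mem 1 N₁.one_mem
    simpa using this
  have b0 : b 1 = 0 := by
    have := b2 1 N₂.one_mem 1 N₂.one_mem
    simpa using this
  have ainv : ∀ x ∈ N₁, a x⁻¹ = - a x := by
    intro x hx
    have := a2 x hx x⁻¹ (N₁.inv_mem hx)
    rw [mul_inv_cancel, a0] at this
    exact eq_neg_of_add_eq_zero_right this.symm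
  have binv : ∀ x ∈ N₂, b x⁻¹ = - b x := by
    intro x hx
    have := b2 x hx x⁻¹ (N₂.inv_mem hx)
    rw [mul_inv_cancel, b0] at this
    exact eq_neg_of_add_eq_zero_right this.symm
  have wd : ∀ u ∈ N₁, ∀ v ∈ N₂, ∀ u' ∈ N₁, ∀ v' ∈ N₂, u * v = u' * v' →
      a u + b v = a u' + b v' := by
    intro u hu v hv u' hu' v' hv' he
    have e1 : u'⁻¹ * u = v' * v⁻¹ := by
      rw [inv_mul_eq_iff_eq_mul, ← mul_assoc, ← he, mul_inv_cancel_right]
    have m1 : u'⁻¹ * u ∈ N₁ := N₁.mul_mem (N₁.inv_mem hu') hu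
    have m2 : u'⁻¹ * u ∈ N₂ := by rw [e1]; exact N₂.mul_mem hv' (N₂.inv_mem hv)
    have h3 := hab _ m1 m2
    rw [a2 _ (N₁.inv_mem hu') _ hu, ainv u' hu', e1, b2 _ hv' _ (N₂.inv_mem hv), binv v hv] at h3
    linear_combination h3
  let χ : G → ZMod p := fun x =>
    if h : x ∈ N₁ ⊔ N₂ then
      a (hdec x h).choose + b (hdec x h).choose_spec.2.choose else 0
  have key : ∀ u ∈ N₁, ∀ v ∈ N₂, χ (u * v) = a u + b v := by
    intro u hu v hv
    have hm : u * v ∈ N₁ ⊔ N₂ :=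
      Subgroup.mul_mem_sup hu hv
    have s1 := (hdec _ hm).choose_spec
    have s2 := s1.2.choose_spec
    show (if h : u * v ∈ N₁ ⊔ N₂ then
      a (hdec _ h).choose + b (hdec _ h).choose_spec.2.choose else 0) = _
    rw [dif_pos hm]
    exact wd _ s1.1 _ s2.1 _ hu _ hv s2.2
  refine ⟨χ, ⟨fun x hx => ?_, fun x hx y hy => ?_, fun g x hx => ?_, U ⊓ N₁, ?_, fun x hx _ => ?_⟩,
    fun x hx => ?_, fun x hx => ?_⟩
  · exact dif_neg hx
  · obtain ⟨u, hu, v, hv, rfl⟩ := hdec x hx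
    obtain ⟨u', hu', v', hv', rfl⟩ := hdec y hy
    have e : u * v * (u' * v') = (u * (v * u' * v⁻¹)) * (v * v') := by group
    have m1 : v * u' * v⁻¹ ∈ N₁ := h₁.conj_mem u' hu' v
    rw [e, key _ (N₁.mul_mem hu m1) _ (N₂.mul_mem hv hv'), key u hu v hv, key u' hu' v' hv',
      a2 u hu _ m1, a3 v u' hu', b2 v hv v' hv']
    ring
  · obtain ⟨u, hu, v, hv, rfl⟩ := hdec x hx
    have e : g * (u * v) * g⁻¹ = (g * u * g⁻¹) * (g * v * g⁻¹) := by group
    rw [e, key _ (h₁.conj_mem u hu g) _ (h₂.conj_mem v hv g), key u hu v hv, a3 g u hu, b3 g v hv]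
  · rw [Subgroup.coe_inf]; exact hU.inter o₁
  · have := key x hx.2 1 N₂.one_mem
    rw [mul_one, b0, add_zero, a4 x hx.1 hx.2] at this
    exact this
  · have := key x hx 1 N₂.one_mem
    rw [mul_one, b0, add_zero] at this
    exact this
  · have := key 1 N₁.one_mem x hx
    rw [one_mul, a0, zero_add] at this
    exact this

/-- Supermodularity of the dimension of the space of invariant characters. -/
theorem supermodular {p : ℕ} [Fact p.Prime] {N₁ N₂ : Subgroup G} (h₁ : N₁.Normal)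
    (h₂ : N₂.Normal) (o₁ : IsOpen (N₁ : Set G))
    (f₁ : FiniteDimensional (ZMod p) (H p N₁)) (f₂ : FiniteDimensional (ZMod p) (H p N₂))
    (f₃ : FiniteDimensional (ZMod p) (H p (N₁ ⊔ N₂)))
    (f₄ : FiniteDimensional (ZMod p) (H p (N₁ ⊓ N₂))) :
    finrank (ZMod p) (H p N₁) + finrank (ZMod p) (H p N₂) ≤
      finrank (ZMod p) (H p (N₁ ⊔ N₂)) + finrank (ZMod p) (H p (N₁ ⊓ N₂)) := by
  have h₄ : (N₁ ⊓ N₂).Normal := Subgroup.normal_inf_normal N₁ N₂
  let r₁ : H p N₁ →ₗ[ZMod p] H p (N₁ ⊓ N₂) :=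
    ((res p (N₁ ⊓ N₂)).comp (H p N₁).subtype).codRestrict _
      (fun χ => res_mem_H h₄ inf_le_left χ.2)
  let r₂ : H p N₂ →ₗ[ZMod p] H p (N₁ ⊓ N₂) :=
    ((res p (N₁ ⊓ N₂)).comp (H p N₂).subtype).codRestrict _
      (fun χ => res_mem_H h₄ inf_le_right χ.2)
  let Φ : (H p N₁ × H p N₂) →ₗ[ZMod p] H p (N₁ ⊓ N₂) :=
    r₁.comp (LinearMap.fst _ _ _) - r₂.comp (LinearMap.snd _ _ _)
  let s₁ : H p (N₁ ⊔ N₂) →ₗ[ZMod p] H p N₁ :=
    ((res p N₁).comp (H p (N₁ ⊔ N₂)).subtype).codRestrict _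
      (fun χ => res_mem_H h₁ le_sup_left χ.2)
  let s₂ : H p (N₁ ⊔ N₂) →ₗ[ZMod p] H p N₂ :=
    ((res p N₂).comp (H p (N₁ ⊔ N₂)).subtype).codRestrict _
      (fun χ => res_mem_H h₂ le_sup_right χ.2)
  let Ψ : H p (N₁ ⊔ N₂) →ₗ[ZMod p] (H p N₁ × H p N₂) := s₁.prod s₂
  have hker : LinearMap.ker Φ ≤ LinearMap.range Ψ := by
    rintro ⟨a, b⟩ hab
    rw [LinearMap.mem_ker] at hab
    have hab' : ∀ x ∈ N₁, x ∈ N₂ → a.1 x = b.1 x := by
      intro x hx hx2
      have h5 := congrFun (congrArg Subtype.val hab) x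
      have h6 : res p (N₁ ⊓ N₂) a.1 x - res p (N₁ ⊓ N₂) b.1 x = 0 := h5
      have hm : x ∈ N₁ ⊓ N₂ := Subgroup.mem_inf.mpr ⟨hx, hx2⟩
      rw [res_mem hm, res_mem hm] at h6
      exact sub_eq_zero.mp h6
    obtain ⟨χ, hχ, hχ1, hχ2⟩ := glue h₁ h₂ o₁ a.2 b.2 hab'
    refine ⟨⟨χ, hχ⟩, ?_⟩
    refine Prod.ext (Subtype.ext ?_) (Subtype.ext ?_)
    · funext x
      show res p N₁ χ x = a.1 x
      by_cases hx : x ∈ N₁
      · rw [res_mem hx, hχ1 x hx]
      · rw [res_not_mem hx, a.2.1 x hx]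
    · funext x
      show res p N₂ χ x = b.1 x
      by_cases hx : x ∈ N₂
      · rw [res_mem hx, hχ2 x hx]
      · rw [res_not_mem hx, b.2.1 x hx]
  have e1 := LinearMap.finrank_range_add_finrank_ker Φ
  rw [finrank_prod] at e1
  have e2 : finrank (ZMod p) (LinearMap.range Φ) ≤ finrank (ZMod p) (H p (N₁ ⊓ N₂)) :=
    Submodule.finrank_le _
  have e3 : finrank (ZMod p) (LinearMap.ker Φ) ≤ finrank (ZMod p) (LinearMap.range Ψ) :=
    Submodule.finrank_mono hker
  have e4 : finrank (ZMod p) (LinearMap.range Ψ) ≤ finrank (ZMod p) (H p (N₁ ⊔ N₂)) :=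
    LinearMap.finrank_range_le Ψ
  omega

end Pool.R708.CN
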