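import Pool.Agent.R708.CN.A

/-! The normal generation rank of an open normal subgroup of a pro-`p` group. -/

namespace Pool.R708.CN

open Subgroup Module

variable {G : Type*} [Group G] [TopologicalSpace G] [IsTopologicalGroup G]

/-- Closed normal closure of a set. -/
def closedNormalClosure (S : Set G) : Subgroup G := (Subgroup.normalClosure S).topologicalClosure

/-- `d_G(N)`: the least size of a finite set whose closed normal closure is `N`
(junk value `0` if there is none). -/
noncomputable def normalRank (N : Subgroup G) : ℕ :=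
  sInf {k : ℕ | ∃ S : Finset G, S.card = k ∧ closedNormalClosure (S : Set G) = N}

theorem char_zero_on_closure {p : ℕ} {N : Subgroup G} (hN : N.Normal) (oN : IsOpen (N : Set G))
    {χ : G → ZMod p} (hχ : χ ∈ H p N) {S : Set G} (hS : ∀ x ∈ S, x ∈ N ∧ χ x = 0) :
    ∀ x ∈ closedNormalClosure S, x ∈ N ∧ χ x = 0 := by
  obtain ⟨a1, a2, a3, U, hU, a4⟩ := hχ
  have a0 : χ 1 = 0 := by
    have := a2 1 N.one_mem 1 N.one_mem
    simpa using this
  have ainv : ∀ x ∈ N, χ x⁻¹ = - χ x := by
    intro x hx
    have := a2 x hx x⁻¹ (N.inv_mem hx)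
    rw [mul_inv_cancel, a0] at this
    exact eq_neg_of_add_eq_zero_right this.symm
  let K : Subgroup G :=
    { carrier := {x | x ∈ N ∧ χ x = 0}
      mul_mem' := by
        rintro x y ⟨hx, hx'⟩ ⟨hy, hy'⟩
        exact ⟨N.mul_mem hx hy, by rw [a2 x hx y hy, hx', hy', add_zero]⟩
      one_mem' := ⟨N.one_mem, a0⟩
      inv_mem' := by
        rintro x ⟨hx, hx'⟩
        exact ⟨N.inv_mem hx, by rw [ainv x hx, hx', neg_zero]⟩ }
  have hKn : K.Normal := ⟨fun x hx g => ⟨hN.conj_mem x hx.1 g, by rw [a3 g x hx.1, hx.2]⟩⟩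
  have hKo : IsOpen (K : Set G) := by
    have h1 : U ⊓ N ≤ K := fun x hx => ⟨hx.2, a4 x hx.1 hx.2⟩
    exact Subgroup.isOpen_mono h1 (by rw [Subgroup.coe_inf]; exact hU.inter oN)
  have hKc : IsClosed (K : Set G) := Subgroup.isClosed_of_isOpen K hKo
  have h2 : Subgroup.normalClosure S ≤ K := Subgroup.normalClosure_le_normal (fun x hx => hS x hx)
  have h3 : closedNormalClosure S ≤ K :=
    Subgroup.topologicalClosure_minimal _ h2 hKc
  exact fun x hx => h3 hx

/-- Existence of finite sets of normal generators gives finite dimension and a lower bound. -/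
theorem finrank_le {p : ℕ} [Fact p.Prime] {N : Subgroup G} (hN : N.Normal)
    (oN : IsOpen (N : Set G)) (S : Finset G) (hS : closedNormalClosure (S : Set G) = N) :
    FiniteDimensional (ZMod p) (H p N) ∧ finrank (ZMod p) (H p N) ≤ S.card := by
  let ev : H p N →ₗ[ZMod p] (S → ZMod p) :=
    { toFun := fun χ s => χ.1 s.1
      map_add' := fun _ _ => rfl
      map_smul' := fun _ _ => rfl }
  have hinj : Function.Injective ev := by
    rw [← LinearMap.ker_eq_bot, LinearMap.ker_eq_bot']
    intro χ h0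
    have h1 : ∀ x ∈ (S : Set G), x ∈ N ∧ χ.1 x = 0 := by
      intro x hx
      refine ⟨?_, congrFun h0 ⟨x, hx⟩⟩
      rw [← hS]
      exact Subgroup.le_topologicalClosure _ (Subgroup.subset_normalClosure hx)
    have h2 := char_zero_on_closure hN oN χ.2 h1
    rw [hS] at h2
    apply Subtype.ext
    funext x
    by_cases hx : x ∈ N
    · exact (h2 x hx).2
    · exact χ.2.1 x hx
  have hfd : FiniteDimensional (ZMod p) (H p N) := FiniteDimensional.of_injective ev hinj
  refine ⟨hfd, ?_⟩
  have := LinearMap.finrank_le_finrank_of_injective hinj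
  simpa using this

/-- The pro-`p` condition. -/
def IsProP (p : ℕ) (G : Type*) [Group G] [TopologicalSpace G] : Prop :=
  ∀ N : Subgroup G, N.Normal → IsOpen (N : Set G) → ∃ k : ℕ, N.index = p ^ k

variable [CompactSpace G] [TotallyDisconnectedSpace G]

/-- A proper closed `G`-normal subgroup of an open normal subgroup is killed by a nonzero
invariant character. -/
theorem exists_char {p : ℕ} [Fact p.Prime] (hp : IsProP p G) {N M : Subgroup G}
    (hN : N.Normal) (oN : IsOpen (N : Set G)) (hM : M.Normal) (cM : IsClosed (M : Set G))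
    (hMN : M ≤ N) (hne : M ≠ N) :
    ∃ χ ∈ H p N, χ ≠ 0 ∧ ∀ x ∈ M, χ x = 0 := by
  classical
  obtain ⟨g, hgN, hgM⟩ : ∃ g ∈ N, g ∉ M := by
    by_contra hcon
    push Not at hcon
    exact hne (le_antisymm hMN hcon)
  obtain ⟨U, hU⟩ := ProfiniteGrp.exist_openNormalSubgroup_sub_open_nhds_of_one
    (U := ((fun x => g * x) ⁻¹' ((M : Set G)ᶜ)) ∩ (N : Set G))
    ((cM.isOpen_compl.preimage (continuous_const_mul g)).inter oN)
    ⟨by simpa using hgM, N.one_mem⟩
  have hUn : U.toSubgroup.Normal := U.isNormal'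
  set K : Subgroup G := M ⊔ U.toSubgroup with hK
  have hKn : K.Normal := Subgroup.sup_normal M U.toSubgroup
  have hKo : IsOpen (K : Set G) := Subgroup.isOpen_mono le_sup_right U.isOpen'
  have hKN : K ≤ N := sup_le hMN (fun x hx => (hU hx).2)
  have hgK : g ∉ K := by
    intro hg
    obtain ⟨m, hm, u, hu, hmu⟩ := Subgroup.mem_sup_of_normal_left.mp hg
    have h1 := (hU (U.toSubgroup.inv_mem hu)).1
    apply h1
    show g * u⁻¹ ∈ M
    rw [← hmu, mul_inv_cancel_right]
    exact hm
  obtain ⟨k, hk⟩ := hp K hKn hKo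
  have hpp := (Fact.out : p.Prime)
  have hfin : Finite (G ⧸ K) := by
    apply Nat.finite_of_card_ne_zero
    have : Nat.card (G ⧸ K) = p ^ k := hk
    rw [this]
    exact (pow_pos hpp.pos k).ne'
  have hQ : IsPGroup p (G ⧸ K) := IsPGroup.of_card (n := k) hk
  set N' : Subgroup (G ⧸ K) := N.map (QuotientGroup.mk' K) with hN'
  have hN'n : N'.Normal := hN.map _ (QuotientGroup.mk'_surjective K)
  have hN'ne : N' ≠ ⊥ := by
    intro h
    have h1 : QuotientGroup.mk' K g ∈ N' := Subgroup.mem_map_of_mem _ hgN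
    rw [h, Subgroup.mem_bot] at h1
    exact hgK ((QuotientGroup.eq_one_iff g).mp h1)
  obtain ⟨χ, hχ1, hχ⟩ := exists_invariant_hom hQ N' hN'ne
  have hmem : ∀ x ∈ N, QuotientGroup.mk' K x ∈ N' := fun x hx => Subgroup.mem_map_of_mem _ hx
  let ψ : G → ZMod p := fun x =>
    if h : x ∈ N then Multiplicative.toAdd (χ ⟨QuotientGroup.mk' K x, hmem x h⟩) else 0
  have hψ : ∀ x (h : x ∈ N), ψ x = Multiplicative.toAdd (χ ⟨QuotientGroup.mk' K x, hmem x h⟩) :=
    fun x h => dif_pos h
  have hψK : ∀ x ∈ K, ψ x = 0 := by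
    intro x hx
    rw [hψ x (hKN hx)]
    have : (⟨QuotientGroup.mk' K x, hmem x (hKN hx)⟩ : N') = 1 := by
      apply Subtype.ext
      exact (QuotientGroup.eq_one_iff x).mpr hx
    rw [this, map_one, toAdd_one]
  refine ⟨ψ, ⟨fun x hx => dif_neg hx, fun x hx y hy => ?_, fun g x hx => ?_, K, hKo,
    fun x hx _ => hψK x hx⟩, ?_, fun x hx => hψK x (le_sup_left (a := M) hx)⟩
  · rw [hψ x hx, hψ y hy, hψ _ (N.mul_mem hx hy), ← toAdd_mul, ← map_mul]
    rfl
  · rw [hψ x hx, hψ _ (hN.conj_mem x hx g)]
    have h1 := hχ (QuotientGroup.mk' K g) ⟨QuotientGroup.mk' K x, hmem x hx⟩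
    rw [← h1]
    congr 1
  · intro h0
    apply hχ1
    ext y
    obtain ⟨x, hx, hxy⟩ := y.2
    have h1 : ψ x = 0 := by rw [h0]; rfl
    rw [hψ x hx] at h1
    have h2 : (⟨QuotientGroup.mk' K x, hmem x hx⟩ : N') = y := Subtype.ext hxy
    rw [h2] at h1
    exact h1

/-- Upper bound: a set of `dim` normal generators. -/
theorem exists_gens {p : ℕ} [Fact p.Prime] (hp : IsProP p G) {N : Subgroup G}
    (hN : N.Normal) (oN : IsOpen (N : Set G)) (hfd : FiniteDimensional (ZMod p) (H p N)) :
    ∃ S : Finset G, S.card ≤ finrank (ZMod p) (H p N) ∧ closedNormalClosure (S : Set G) = N := by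
  classical
  let ev : G → Dual (ZMod p) (H p N) := fun x =>
    { toFun := fun χ => χ.1 x
      map_add' := fun _ _ => rfl
      map_smul' := fun _ _ => rfl }
  obtain ⟨f, hf1, hf2, -⟩ := Submodule.exists_fun_fin_finrank_span_eq (ZMod p) (ev '' (N : Set G))
  choose x hx1 hx2 using hf1
  have hn : finrank (ZMod p) (Submodule.span (ZMod p) (ev '' (N : Set G))) ≤
      finrank (ZMod p) (H p N) := by
    refine (Submodule.finrank_le _).trans ?_
    rw [Subspace.dual_finrank_eq]
  refine ⟨Finset.univ.image x, ?_, ?_⟩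
  · refine Finset.card_image_le.trans ?_
    simpa using hn
  · set S : Set G := ((Finset.univ.image x : Finset G) : Set G) with hS
    have hSN : ∀ y ∈ S, y ∈ N := by
      intro y hy
      rw [hS, Finset.coe_image, Finset.coe_univ, Set.image_univ] at hy
      obtain ⟨i, rfl⟩ := hy
      exact hx1 i
    have cN : IsClosed (N : Set G) := Subgroup.isClosed_of_isOpen N oN
    have hle : closedNormalClosure S ≤ N :=
      Subgroup.topologicalClosure_minimal _ (Subgroup.normalClosure_le_normal hSN) cN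
    by_contra hne
    have hMn : (closedNormalClosure S).Normal :=
      Subgroup.is_normal_topologicalClosure (Subgroup.normalClosure S)
    obtain ⟨χ, hχ, hχ0, hχS⟩ := exists_char hp hN oN hMn
      (Subgroup.isClosed_topologicalClosure _) hle hne
    apply hχ0
    have h1 : ∀ φ ∈ Submodule.span (ZMod p) (ev '' (N : Set G)), φ ⟨χ, hχ⟩ = 0 := by
      rw [← hf2]
      intro φ hφ
      induction hφ using Submodule.span_induction with
      | mem φ h =>
        obtain ⟨i, rfl⟩ := h
        rw [← hx2 i]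
        show χ (x i) = 0
        apply hχS
        apply Subgroup.le_topologicalClosure
        apply Subgroup.subset_normalClosure
        rw [hS]
        simp
      | zero => rfl
      | add a b _ _ ha hb => rw [LinearMap.add_apply, ha, hb, add_zero]
      | smul c a _ ha => rw [LinearMap.smul_apply, ha, smul_zero]
    funext y
    by_cases hy : y ∈ N
    · exact h1 (ev y) (Submodule.subset_span ⟨y, hy, rfl⟩)
    · exact hχ.1 y hy

/-- The rank equals the dimension, once it is finite. -/
theorem normalRank_eq {p : ℕ} [Fact p.Prime] (hp : IsProP p G) {N : Subgroup G}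
    (hN : N.Normal) (oN : IsOpen (N : Set G))
    (hS : ∃ S : Finset G, closedNormalClosure (S : Set G) = N) :
    FiniteDimensional (ZMod p) (H p N) ∧ normalRank N = finrank (ZMod p) (H p N) := by
  obtain ⟨S, hS⟩ := hS
  have h1 := (finrank_le (p := p) hN oN S hS).1
  refine ⟨h1, le_antisymm ?_ ?_⟩
  · obtain ⟨T, hT1, hT2⟩ := exists_gens hp hN oN h1
    have h2 : normalRank N ≤ T.card := Nat.sInf_le ⟨T, rfl, hT2⟩
    exact h2.trans hT1
  · have hne : Set.Nonempty
        {k : ℕ | ∃ S : Finset G, S.card = k ∧ closedNormalClosure (S : Set G) = N} :=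
      ⟨S.card, S, rfl, hS⟩
    obtain ⟨T, hT1, hT2⟩ := Nat.sInf_mem hne
    have := (finrank_le (p := p) hN oN T hT2).2
    rw [hT1] at this
    exact this

end Pool.R708.CN
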