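import Pool.Agent.R708.CN.B

/-! Topological finite generation, finiteness of the number of open normal subgroups of given
index, modularity of the logarithm of the index, and the uncrossing argument. -/

namespace Pool.R708.CN

open Subgroup Module

variable {G : Type*} [Group G] [TopologicalSpace G] [IsTopologicalGroup G]

/-- Topological finite generation. -/
def TopFG (G : Type*) [Group G] [TopologicalSpace G] : Prop :=
  ∃ S : Finset G, Dense ((Subgroup.closure (S : Set G) : Subgroup G) : Set G)

theorem closure_inter_dense {Γ : Subgroup G} (hΓ : Dense (Γ : Set G)) {N : Subgroup G}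
    (oN : IsOpen (N : Set G)) : (N ⊓ Γ).topologicalClosure = N := by
  apply le_antisymm
  · exact Subgroup.topologicalClosure_minimal _ inf_le_left (Subgroup.isClosed_of_isOpen N oN)
  · intro x hx
    have := hΓ.open_subset_closure_inter oN hx
    exact this

/-- Open finite-index normal subgroups have finitely many topological normal generators. -/
theorem exists_finite_gens (hfg : TopFG G) {N : Subgroup G} (hN : N.Normal)
    (oN : IsOpen (N : Set G)) (hi : N.index ≠ 0) :
    ∃ S : Finset G, closedNormalClosure (S : Set G) = N := by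
  classical
  obtain ⟨S, hS⟩ := hfg
  set Γ : Subgroup G := Subgroup.closure (S : Set G) with hΓ
  have hΓfg : Group.FG Γ := by
    rw [Group.fg_iff_subgroup_fg]
    exact ⟨S, rfl⟩
  have hfi : (N.subgroupOf Γ).FiniteIndex := by
    constructor
    have : (N.subgroupOf Γ).index = N.relIndex Γ := rfl
    rw [this]
    intro h0
    have h1 := Subgroup.relIndex_dvd_index_of_normal N Γ
    rw [h0] at h1
    exact hi (Nat.eq_zero_of_zero_dvd h1)
  have hfg2 : Group.FG (N.subgroupOf Γ) := Subgroup.fg_of_index_ne_zero _
  obtain ⟨T, hT⟩ := (Group.fg_iff_subgroup_fg _).mp hfg2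
  refine ⟨T.image Subtype.val, ?_⟩
  have h1 : Subgroup.closure ((T.image Subtype.val : Finset G) : Set G) = N ⊓ Γ := by
    rw [Finset.coe_image]
    have : (Subtype.val : Γ → G) = Γ.subtype := rfl
    rw [this, ← MonoidHom.map_closure, hT, Subgroup.subgroupOf_map_subtype]
  apply le_antisymm
  · refine Subgroup.topologicalClosure_minimal _ ?_ (Subgroup.isClosed_of_isOpen N oN)
    apply Subgroup.normalClosure_le_normal
    intro x hx
    have : x ∈ N ⊓ Γ := by rw [← h1]; exact Subgroup.subset_closure hx
    exact this.1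
  · conv_lhs => rw [← closure_inter_dense hS oN]
    refine Subgroup.topologicalClosure_mono ?_
    rw [← h1]
    exact Subgroup.closure_le_normalClosure

/-- There are only finitely many open normal subgroups of a given index. -/
theorem finite_index_eq (hfg : TopFG G) (n : ℕ) (hn : n ≠ 0) :
    {N : Subgroup G | N.Normal ∧ IsOpen (N : Set G) ∧ N.index = n}.Finite := by
  classical
  obtain ⟨S, hS⟩ := hfg
  have key : ∀ N : {N : Subgroup G // N.Normal ∧ IsOpen (N : Set G) ∧ N.index = n},
      ∃ φ : G →* Equiv.Perm (Fin n), φ.ker = N.1 := by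
    rintro ⟨N, hN, oN, hi⟩
    have hcard : Nat.card (G ⧸ N) = n := hi
    have : Finite (G ⧸ N) := Nat.finite_of_card_ne_zero (by rw [hcard]; exact hn)
    have e : (G ⧸ N) ≃ Fin n := by
      have := Finite.equivFin (G ⧸ N)
      rw [hcard] at this
      exact this
    refine ⟨(e.permCongrHom : Equiv.Perm (G ⧸ N) ≃* Equiv.Perm (Fin n)).toMonoidHom.comp
      (MulAction.toPermHom G (G ⧸ N)), ?_⟩
    ext x
    rw [MonoidHom.mem_ker]
    constructor
    · intro h
      have h1 : MulAction.toPermHom G (G ⧸ N) x = 1 := by
        apply (e.permCongrHom : Equiv.Perm (G ⧸ N) ≃* Equiv.Perm (Fin n)).injective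
        rw [map_one]
        exact h
      have h2 : x • ((1 : G) : G ⧸ N) = ((1 : G) : G ⧸ N) := by
        have := Equiv.congr_fun h1 ((1 : G) : G ⧸ N)
        exact this
      have h3 : ((x * 1 : G) : G ⧸ N) = ((1 : G) : G ⧸ N) := h2
      rw [mul_one] at h3
      exact (QuotientGroup.eq_one_iff x).mp h3
    · intro h
      have h1 : MulAction.toPermHom G (G ⧸ N) x = 1 := by
        ext y
        induction y using QuotientGroup.induction_on with
        | H g =>
          show ((x * g : G) : G ⧸ N) = ((g : G) : G ⧸ N)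
          rw [QuotientGroup.eq]
          have := hN.conj_mem x⁻¹ (N.inv_mem h) g⁻¹
          simpa [mul_assoc] using this
      show (e.permCongrHom : Equiv.Perm (G ⧸ N) ≃* Equiv.Perm (Fin n))
        (MulAction.toPermHom G (G ⧸ N) x) = 1
      rw [h1, map_one]
  choose φ hφ using key
  let F : {N : Subgroup G // N.Normal ∧ IsOpen (N : Set G) ∧ N.index = n} →
      (S → Equiv.Perm (Fin n)) := fun N s => φ N s.1
  have hF : Function.Injective F := by
    intro N M h
    have h1 : Set.EqOn (φ N) (φ M) (Subgroup.closure (S : Set G) : Subgroup G) := by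
      apply MonoidHom.eqOn_closure
      intro s hs
      exact congrFun h ⟨s, hs⟩
    have h2 : N.1 ⊓ Subgroup.closure (S : Set G) = M.1 ⊓ Subgroup.closure (S : Set G) := by
      ext x
      simp only [Subgroup.mem_inf]
      constructor
      · rintro ⟨hx, hx'⟩
        refine ⟨?_, hx'⟩
        rw [← hφ M, MonoidHom.mem_ker, ← h1 hx']
        rwa [← hφ N, MonoidHom.mem_ker] at hx
      · rintro ⟨hx, hx'⟩
        refine ⟨?_, hx'⟩
        rw [← hφ N, MonoidHom.mem_ker, h1 hx']
        rwa [← hφ M, MonoidHom.mem_ker] at hx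
    apply Subtype.ext
    rw [← closure_inter_dense hS N.2.2.1, h2, closure_inter_dense hS M.2.2.1]
  have : Finite {N : Subgroup G // N.Normal ∧ IsOpen (N : Set G) ∧ N.index = n} :=
    Finite.of_injective F hF
  exact Set.finite_coe_iff.mp this

omit [TopologicalSpace G] [IsTopologicalGroup G] in
theorem index_modular {N₁ N₂ : Subgroup G} (h₁ : N₁.Normal) :
    (N₁ ⊔ N₂).index * (N₁ ⊓ N₂).index = N₁.index * N₂.index := by
  have e1 : N₁.relIndex (N₁ ⊔ N₂) * (N₁ ⊔ N₂).index = N₁.index :=
    Subgroup.relIndex_mul_index le_sup_left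
  have e2 : (N₁ ⊓ N₂).relIndex N₂ * N₂.index = (N₁ ⊓ N₂).index :=
    Subgroup.relIndex_mul_index inf_le_right
  rw [Subgroup.relIndex_sup_left] at e1
  rw [Subgroup.inf_relIndex_right] at e2
  rw [← e1, ← e2]
  ring

/-- An automorphism maps the closed normal closure of a set to that of the image. -/
theorem closedNormalClosure_image (α : G ≃ₜ* G) (S : Set G) :
    closedNormalClosure (α '' S) = (closedNormalClosure S).map α.toMulEquiv.toMonoidHom := by
  have h1 : Subgroup.normalClosure (α '' S) =
      (Subgroup.normalClosure S).map α.toMulEquiv.toMonoidHom := by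
    rw [Subgroup.map_normalClosure _ _ α.surjective]
    rfl
  apply SetLike.coe_injective
  show _root_.closure ((Subgroup.normalClosure (α '' S) : Subgroup G) : Set G) =
    α '' (_root_.closure ((Subgroup.normalClosure S : Subgroup G) : Set G))
  rw [h1]
  exact (α.toHomeomorph.image_closure _).symm

theorem normalRank_map_le (α : G ≃ₜ* G) {N : Subgroup G}
    (hS : ∃ S : Finset G, closedNormalClosure (S : Set G) = N) :
    (∃ S : Finset G, closedNormalClosure (S : Set G) = N.map α.toMulEquiv.toMonoidHom) ∧
    normalRank (N.map α.toMulEquiv.toMonoidHom) ≤ normalRank N := by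
  classical
  obtain ⟨S, hS⟩ := hS
  have hne : Set.Nonempty
      {k : ℕ | ∃ S : Finset G, S.card = k ∧ closedNormalClosure (S : Set G) = N} :=
    ⟨S.card, S, rfl, hS⟩
  obtain ⟨T, hT1, hT2⟩ := Nat.sInf_mem hne
  have h1 : closedNormalClosure ((T.image α : Finset G) : Set G) =
      N.map α.toMulEquiv.toMonoidHom := by
    rw [Finset.coe_image, closedNormalClosure_image, hT2]
  have h2 : normalRank (N.map α.toMulEquiv.toMonoidHom) ≤ (T.image α).card :=
    Nat.sInf_le ⟨_, rfl, h1⟩
  refine ⟨⟨_, h1⟩, h2.trans (Finset.card_image_le.trans ?_)⟩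
  exact hT1.le

end Pool.R708.CN
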