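import Pool.Agent.R708.CN.C

/-! The uncrossing argument. -/

namespace Pool.R708.CN

open Subgroup Module

variable {G : Type*} [Group G] [TopologicalSpace G] [IsTopologicalGroup G]

/-- the image of a subgroup under a topological automorphism -/
abbrev im (α : G ≃ₜ* G) (N : Subgroup G) : Subgroup G := N.map α.toMulEquiv.toMonoidHom

omit [IsTopologicalGroup G] in
theorem mem_im {α : G ≃ₜ* G} {N : Subgroup G} {x : G} : x ∈ im α N ↔ α.symm x ∈ N := by
  constructor
  · rintro ⟨y, hy, rfl⟩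
    have : α.symm (α y) = y := α.symm_apply_apply y
    show α.symm (α y) ∈ N
    rw [this]; exact hy
  · intro h
    exact ⟨α.symm x, h, α.apply_symm_apply x⟩

omit [IsTopologicalGroup G] in
theorem im_symm_im (α : G ≃ₜ* G) (N : Subgroup G) : im α.symm (im α N) = N := by
  ext x
  rw [mem_im, mem_im]
  have : α.symm (α.symm.symm x) = x := α.symm_apply_apply x
  rw [this]

omit [IsTopologicalGroup G] in
theorem im_normal (α : G ≃ₜ* G) {N : Subgroup G} (h : N.Normal) : (im α N).Normal :=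
  h.map _ α.surjective

omit [IsTopologicalGroup G] in
theorem im_open (α : G ≃ₜ* G) {N : Subgroup G} (h : IsOpen (N : Set G)) :
    IsOpen ((im α N : Subgroup G) : Set G) := by
  have h1 : ((im α N : Subgroup G) : Set G) = α '' (N : Set G) := rfl
  rw [h1]
  exact α.toHomeomorph.isOpenMap _ h

omit [IsTopologicalGroup G] in
theorem im_index (α : G ≃ₜ* G) (N : Subgroup G) : (im α N).index = N.index :=
  Subgroup.index_map_equiv N α.toMulEquiv

section

variable {p : ℕ} [Fact p.Prime]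

theorem index_pos (hp : IsProP p G) {N : Subgroup G} (hN : N.Normal)
    (oN : IsOpen (N : Set G)) : N.index ≠ 0 := by
  obtain ⟨k, hk⟩ := hp N hN oN
  rw [hk]
  exact (pow_pos (Fact.out : p.Prime).pos k).ne'

theorem normalRank_im (hp : IsProP p G) (hfg : TopFG G) (α : G ≃ₜ* G) {N : Subgroup G}
    (hN : N.Normal) (oN : IsOpen (N : Set G)) : normalRank (im α N) = normalRank N := by
  have h1 := normalRank_map_le α (exists_finite_gens hfg hN oN (index_pos hp hN oN))
  have h2 := normalRank_map_le α.symm h1.1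
  have h3 : (N.map α.toMulEquiv.toMonoidHom).map α.symm.toMulEquiv.toMonoidHom = N :=
    im_symm_im α N
  rw [h3] at h2
  exact le_antisymm h1.2 h2.2

variable (p)

/-- The functional `d_G(N) - ε log_p (G : N)`. -/
noncomputable def gg (ε : ℝ) (N : Subgroup G) : ℝ :=
  (normalRank N : ℝ) - ε * Real.logb p N.index

variable {p}

variable [CompactSpace G] [TotallyDisconnectedSpace G]

theorem gg_super (hp : IsProP p G) (hfg : TopFG G) (ε : ℝ) {N₁ N₂ : Subgroup G}
    (h₁ : N₁.Normal) (o₁ : IsOpen (N₁ : Set G)) (h₂ : N₂.Normal) (o₂ : IsOpen (N₂ : Set G)) :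
    gg p ε N₁ + gg p ε N₂ ≤ gg p ε (N₁ ⊔ N₂) + gg p ε (N₁ ⊓ N₂) := by
  have h₃ : (N₁ ⊔ N₂).Normal := Subgroup.sup_normal N₁ N₂
  have o₃ : IsOpen ((N₁ ⊔ N₂ : Subgroup G) : Set G) := Subgroup.isOpen_mono le_sup_left o₁
  have h₄ : (N₁ ⊓ N₂).Normal := Subgroup.normal_inf_normal N₁ N₂
  have o₄ : IsOpen ((N₁ ⊓ N₂ : Subgroup G) : Set G) := by
    rw [Subgroup.coe_inf]; exact o₁.inter o₂
  have e₁ := normalRank_eq hp h₁ o₁ (exists_finite_gens hfg h₁ o₁ (index_pos hp h₁ o₁))
  have e₂ := normalRank_eq hp h₂ o₂ (exists_finite_gens hfg h₂ o₂ (index_pos hp h₂ o₂))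
  have e₃ := normalRank_eq hp h₃ o₃ (exists_finite_gens hfg h₃ o₃ (index_pos hp h₃ o₃))
  have e₄ := normalRank_eq hp h₄ o₄ (exists_finite_gens hfg h₄ o₄ (index_pos hp h₄ o₄))
  have hs := supermodular h₁ h₂ o₁ e₁.1 e₂.1 e₃.1 e₄.1
  rw [← e₁.2, ← e₂.2, ← e₃.2, ← e₄.2] at hs
  have hs' : (normalRank N₁ : ℝ) + normalRank N₂ ≤
      normalRank (N₁ ⊔ N₂) + normalRank (N₁ ⊓ N₂) := by exact_mod_cast hs
  have hm := index_modular (N₂ := N₂) h₁
  have hl : Real.logb p (N₁ ⊔ N₂).index + Real.logb p (N₁ ⊓ N₂).index =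
      Real.logb p N₁.index + Real.logb p N₂.index := by
    rw [← Real.logb_mul, ← Real.logb_mul]
    · congr 1
      exact_mod_cast hm
    · exact_mod_cast index_pos hp h₁ o₁
    · exact_mod_cast index_pos hp h₂ o₂
    · exact_mod_cast index_pos hp h₃ o₃
    · exact_mod_cast index_pos hp h₄ o₄
  unfold gg
  have : ε * (Real.logb p (N₁ ⊔ N₂).index + Real.logb p (N₁ ⊓ N₂).index) =
      ε * (Real.logb p N₁.index + Real.logb p N₂.index) := by rw [hl]
  linarith

/-- Uncrossing: a characteristic open subgroup whose functional is at least that of `N`. -/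
theorem uncross (hp : IsProP p G) (hfg : TopFG G) (ε : ℝ) {N : Subgroup G}
    (hN : N.Normal) (oN : IsOpen (N : Set G)) :
    ∃ C : Subgroup G, IsOpen (C : Set G) ∧ (∀ α : G ≃ₜ* G, im α C = C) ∧
      gg p ε N ≤ gg p ε C := by
  classical
  set 𝒦 : Set (Subgroup G) := {K | K.Normal ∧ IsOpen (K : Set G) ∧ K.index = N.index} with h𝒦
  have h𝒦f : 𝒦.Finite := finite_index_eq hfg _ (index_pos hp hN oN)
  set P : Subgroup G := sInf 𝒦 with hP
  have hPN : P ≤ N := sInf_le ⟨hN, oN, rfl⟩
  have hPn : P.Normal := by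
    constructor
    intro x hx g
    rw [hP, Subgroup.mem_sInf] at hx ⊢
    intro K hK
    exact hK.1.conj_mem x (hx K hK) g
  have hPo : IsOpen (P : Set G) := by
    rw [hP, Subgroup.coe_sInf]
    exact h𝒦f.isOpen_biInter (fun K hK => hK.2.1)
  have hPα : ∀ α : G ≃ₜ* G, P ≤ im α P := by
    intro α x hx
    rw [mem_im, hP, Subgroup.mem_sInf]
    intro K hK
    rw [← mem_im]
    rw [hP, Subgroup.mem_sInf] at hx
    exact hx _ ⟨im_normal α hK.1, im_open α hK.2.1, by rw [im_index]; exact hK.2.2⟩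
  set L : Set (Subgroup G) := {K | K.Normal ∧ IsOpen (K : Set G) ∧ P ≤ K} with hL
  have hLf : L.Finite := by
    have h1 : L ⊆ ⋃ m ∈ Finset.Icc 1 P.index,
        {K : Subgroup G | K.Normal ∧ IsOpen (K : Set G) ∧ K.index = m} := by
      intro K hK
      have h2 : K.index ∣ P.index := Subgroup.index_dvd_of_le hK.2.2
      have h3 := index_pos hp hPn hPo
      have h4 := index_pos hp hK.1 hK.2.1
      simp only [Set.mem_iUnion]
      exact ⟨K.index, Finset.mem_Icc.mpr ⟨Nat.one_le_iff_ne_zero.mpr h4,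
        Nat.le_of_dvd (Nat.pos_of_ne_zero h3) h2⟩, hK.1, hK.2.1, rfl⟩
    refine Set.Finite.subset ?_ h1
    refine Set.Finite.biUnion (Finset.finite_toSet _) (fun m hm => ?_)
    have hm' := Finset.mem_Icc.mp hm
    exact finite_index_eq hfg m (by omega)
  obtain ⟨K₀, hK₀, hmax⟩ := Set.exists_max_image L (gg p ε) hLf ⟨N, hN, oN, hPN⟩
  set L' : Set (Subgroup G) := {K | K ∈ L ∧ gg p ε K = gg p ε K₀} with hL'
  have hL'f : L'.Finite := hLf.subset (fun K hK => hK.1)
  obtain ⟨C, hC, hmin⟩ := Set.exists_min_image L' (fun K => K.index) hL'f ⟨K₀, hK₀, rfl⟩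
  have hle : ∀ α : G ≃ₜ* G, im α C ≤ C := by
    intro α
    have hCn : C.Normal := hC.1.1
    have hCo : IsOpen (C : Set G) := hC.1.2.1
    have hC'n := im_normal α hCn
    have hC'o := im_open α hCo
    have hPC' : P ≤ im α C := (hPα α).trans (Subgroup.map_mono hC.1.2.2)
    have hg' : gg p ε (im α C) = gg p ε K₀ := by
      rw [← hC.2]
      unfold gg
      rw [normalRank_im hp hfg α hCn hCo, im_index]
    have hsup : C ⊔ im α C ∈ L := ⟨Subgroup.sup_normal _ _, Subgroup.isOpen_mono le_sup_left hCo,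
      hC.1.2.2.trans le_sup_left⟩
    have hinf : C ⊓ im α C ∈ L := ⟨Subgroup.normal_inf_normal _ _, by
      rw [Subgroup.coe_inf]; exact hCo.inter hC'o, le_inf hC.1.2.2 hPC'⟩
    have h1 := gg_super hp hfg ε hCn hCo hC'n hC'o
    have h2 := hmax _ hsup
    have h3 := hmax _ hinf
    rw [hC.2, hg'] at h1
    have h4 : gg p ε (C ⊔ im α C) = gg p ε K₀ := by linarith
    have h5 : C.index ≤ (C ⊔ im α C).index := hmin _ ⟨hsup, h4⟩
    have h6 : C.relIndex (C ⊔ im α C) * (C ⊔ im α C).index = C.index :=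
      Subgroup.relIndex_mul_index le_sup_left
    have h7 := index_pos hp hsup.1 hsup.2.1
    have h8 : C.relIndex (C ⊔ im α C) = 1 := by
      have h9 : C.relIndex (C ⊔ im α C) ≤ 1 := by
        by_contra hcon
        push Not at hcon
        have : 2 * (C ⊔ im α C).index ≤ C.index := by
          rw [← h6]
          exact Nat.mul_le_mul_right _ hcon
        omega
      have h10 : C.relIndex (C ⊔ im α C) ≠ 0 := by
        intro h0
        rw [h0, zero_mul] at h6
        exact index_pos hp hCn hCo h6.symm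
      omega
    rw [Subgroup.relIndex_eq_one] at h8
    exact le_sup_right.trans h8
  refine ⟨C, hC.1.2.1, fun α => le_antisymm (hle α) ?_, ?_⟩
  · have h1 : im α (im α.symm C) ≤ im α C := Subgroup.map_mono (hle α.symm)
    have h2 : im α (im α.symm C) = C := im_symm_im α.symm C
    rwa [h2] at h1
  · rw [hC.2]
    exact hmax _ ⟨hN, oN, hPN⟩

/-- Main theorem. -/
theorem main (hp : IsProP p G) (hfg : TopFG G) {c ε : ℝ} (hε : ε < c)
    (h : {N : Subgroup G | IsOpen (N : Set G) ∧ N.Normal ∧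
      c * Real.logb p N.index ≤ normalRank N}.Infinite) :
    {C : Subgroup G | IsOpen (C : Set G) ∧ (∀ α : G ≃ₜ* G, im α C = C) ∧
      ε * Real.logb p C.index ≤ normalRank C}.Infinite := by
  classical
  intro hfin
  obtain ⟨B, hB⟩ := (hfin.image (gg p ε)).bddAbove
  set B' : ℝ := max B 0 + 1 with hB'
  obtain ⟨k, hk⟩ := exists_nat_ge (B' / (c - ε))
  have hpp := (Fact.out : p.Prime)
  have hlow : (⋃ m ∈ Finset.Icc 1 (p ^ k),
        {K : Subgroup G | K.Normal ∧ IsOpen (K : Set G) ∧ K.index = m}).Finite := by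
    refine Set.Finite.biUnion (Finset.finite_toSet _) (fun m hm => ?_)
    have hm' := Finset.mem_Icc.mp hm
    exact finite_index_eq hfg m (by omega)
  obtain ⟨N, hN, hN2⟩ := h.exists_notMem_finite hlow
  obtain ⟨oN, hNn, hNc⟩ := hN
  have hidx : p ^ k < N.index := by
    by_contra hcon
    push Not at hcon
    apply hN2
    simp only [Set.mem_iUnion]
    exact ⟨N.index, Finset.mem_Icc.mpr ⟨Nat.one_le_iff_ne_zero.mpr (index_pos hp hNn oN), hcon⟩,
      hNn, oN, rfl⟩
  have hlog : (k : ℝ) ≤ Real.logb p N.index := by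
    rw [Real.le_logb_iff_rpow_le (by exact_mod_cast hpp.one_lt)
      (by exact_mod_cast Nat.pos_of_ne_zero (index_pos hp hNn oN)), Real.rpow_natCast]
    exact_mod_cast hidx.le
  have hce : 0 < c - ε := sub_pos.mpr hε
  have h1 : B' ≤ gg p ε N := by
    have h2 : B' ≤ (c - ε) * k := by
      rw [div_le_iff₀ hce] at hk
      linarith
    have h3 : (c - ε) * k ≤ (c - ε) * Real.logb p N.index :=
      mul_le_mul_of_nonneg_left hlog hce.le
    unfold gg
    nlinarith
  obtain ⟨C, oC, hCα, hCg⟩ := uncross hp hfg ε hNn oN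
  have h4 : B' ≤ gg p ε C := h1.trans hCg
  have h5 : (0 : ℝ) < B' := by
    have := le_max_right B 0
    linarith
  have h6 : C ∈ {C : Subgroup G | IsOpen (C : Set G) ∧ (∀ α : G ≃ₜ* G, im α C = C) ∧
      ε * Real.logb p C.index ≤ normalRank C} := by
    refine ⟨oC, hCα, ?_⟩
    unfold gg at h4
    linarith
  have h7 := hB ⟨C, h6, rfl⟩
  have h8 := le_max_left B 0
  linarith

end

end Pool.R708.CN
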